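import Pool.Agent.helper37.L5.Spec

set_option autoImplicit false

namespace Pool.Agent.L5

open Pool.Agent.helper58.DC Pool.Agent.DI Pool.Agent.GR Pool.Agent.OB Pool.Agent.DR Pool.Agent.FI Pool.Agent.FI3 Pool.Agent.FI4 Pool.Agent.FI4I Pool.Agent.LE

theorem FRA5_inj {G : Type} [Group G] (h : G) : Function.Injective (cjF h : (G → ℂ) → (G → ℂ)) := by
  intro ψ ψ' e
  funext x
  have h1 := congrFun e (h * x * h⁻¹)
  rw [cjF_apply, cjF_apply] at h1
  have h2 : h⁻¹ * (h * x * h⁻¹) * h = x := by group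
  rwa [h2] at h1

theorem FRA5_e {G : Type} [Group G] (K : Subgroup G) (S : Set (G → ℂ)) (h y : G) :
    eS K S (h⁻¹ * y * h) = eS K (cjF h '' S) y := by
  unfold eS
  congr 1
  rw [finsum_mem_image (fun a _ b _ e => FRA5_inj h e)]
  refine finsum_mem_congr rfl fun ψ _ => ?_
  rw [cjF_apply, cjF_apply]
  have h1 : h⁻¹ * 1 * h = 1 := by group
  have h2 : h⁻¹ * y⁻¹ * h = (h⁻¹ * y * h)⁻¹ := by group
  rw [h1, h2]

theorem FRA5_cj {G : Type} [Group G] (g h : G) (ψ : G → ℂ) : cjF g (cjF h ψ) = cjF (g * h) ψ := by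
  funext x
  rw [cjF_apply, cjF_apply, cjF_apply]
  congr 1
  group

theorem FRA5_one {G : Type} [Group G] (ψ : G → ℂ) : cjF 1 ψ = ψ := by
  funext x
  rw [cjF_apply]
  congr 1
  group

/-- the image form of invariance -/
theorem FRA5_im {G : Type} [Group G] (b : Set (G → ℂ)) (h : G) (h1 : ∀ ψ ∈ b, cjF h ψ ∈ b)
    (h2 : ∀ ψ ∈ b, cjF h⁻¹ ψ ∈ b) : cjF h '' b = b := by
  ext ψ
  constructor
  · rintro ⟨ψ', hψ', rfl⟩
    exact h1 _ hψ'
  · intro hψ
    refine ⟨cjF h⁻¹ ψ, h2 _ hψ, ?_⟩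
    rw [FRA5_cj, mul_inv_cancel, FRA5_one]

/-- the stabiliser of a set of functions -/
theorem FRA5_st {G : Type} [Group G] (b : Set (G → ℂ)) (A B : Subgroup G) (hA : ∀ h ∈ A, cjF h '' b = b)
    (hB : ∀ h ∈ B, cjF h '' b = b) : ∀ h ∈ A ⊔ B, cjF h '' b = b := by
  let St : Subgroup G :=
    { carrier := {h | cjF h '' b = b}
      one_mem' := by
        change cjF (1 : G) '' b = b
        have : (cjF (1 : G) : (G → ℂ) → (G → ℂ)) = id := by
          funext ψ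
          exact FRA5_one ψ
        rw [this, Set.image_id]
      mul_mem' := by
        intro g h hg hh
        change cjF (g * h) '' b = b
        have hg' : cjF g '' b = b := hg
        have hh' : cjF h '' b = b := hh
        have : (cjF (g * h) : (G → ℂ) → (G → ℂ)) = cjF g ∘ cjF h := by
          funext ψ
          exact (FRA5_cj g h ψ).symm
        rw [this, Set.image_comp, hh', hg']
      inv_mem' := by
        intro h hh
        have hh' : cjF h '' b = b := hh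
        change cjF h⁻¹ '' b = b
        have h1 : cjF h⁻¹ '' (cjF h '' b) = b := by
          rw [← Set.image_comp]
          have : (cjF h⁻¹ : (G → ℂ) → (G → ℂ)) ∘ cjF h = id := by
            funext ψ
            change cjF h⁻¹ (cjF h ψ) = ψ
            rw [FRA5_cj, inv_mul_cancel, FRA5_one]
          rw [this, Set.image_id]
        rwa [hh'] at h1 }
  have hle : A ⊔ B ≤ St := sup_le (fun h hh => hA h hh) (fun h hh => hB h hh)
  intro h hh
  exact hle hh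

theorem FRA5 (hLOA : LOA_stmt) (hFRA : FRA4_stmt) (hCJG : CJG_stmt) (hIDM : IDM_stmt) (hEPR : EPR_stmt) (hB2 : B2_stmt) : FRA5_stmt := by
  intro p M hS G _ _ D x θ χ hRt R hRD hnz
  have hLo := hLOA p M hS G D x θ χ hRt
  obtain ⟨-, hF2, hF3⟩ := hFRA p M hS G D x θ χ hLo R hRD
  have hsub : Bl M (cz R) θ ⊆ IrrOn (cz R) := fun ψ hψ => hψ.1
  -- `K` is invariant
  have hKc : ∀ h : G, (cz R).map (MulAut.conj h).toMonoidHom = cz R := by
    intro h
    obtain ⟨-, -, -, -, h5, -⟩ := hCJG G M p h (cz R)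
    rw [← h5 R]
    have hh : h ∈ nz R := by rw [hnz]; exact Subgroup.mem_top h
    have : R.map (MulAut.conj h).toMonoidHom = R := by
      ext y
      rw [show (y ∈ R.map (MulAut.conj h).toMonoidHom ↔ h⁻¹ * y * h ∈ R) from mem_cjS]
      have h1 := (Subgroup.mem_normalizer_iff.1 hh (h⁻¹ * y * h))
      have h2 : h * (h⁻¹ * y * h) * h⁻¹ = y := by group
      rw [h2] at h1
      exact h1
    rw [this]
  have hIrr : ∀ h : G, ∀ ψ ∈ IrrOn (cz R), cjF h ψ ∈ IrrOn (cz R) := by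
    intro h ψ hψ
    obtain ⟨h1, -⟩ := hCJG G M p h (cz R)
    have := h1 ψ hψ
    rwa [hKc h] at this
  have hK : ∀ h ∈ cz R, ∀ ψ ∈ Bl M (cz R) θ, cjF h ψ ∈ Bl M (cz R) θ := by
    intro h hh ψ hψ
    refine ⟨hIrr h ψ hψ.1, ?_⟩
    obtain ⟨-, -, -, -, -, h6, -⟩ := hCJG G M p h (cz R)
    exact ((h6 hh ψ).1).trans hψ.2
  have hT : ∀ h ∈ TT M D θ, ∀ ψ ∈ Bl M (cz R) θ, cjF h ψ ∈ Bl M (cz R) θ := by
    intro h hh ψ hψ
    exact hF3 h hh (by rw [hnz]; exact Subgroup.mem_top h) ψ hψ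
  have hinv : ∀ h ∈ cz R ⊔ TT M D θ, cjF h '' Bl M (cz R) θ = Bl M (cz R) θ := by
    refine FRA5_st _ _ _ (fun h hh => FRA5_im _ h (hK h hh) (hK _ ((cz R).inv_mem hh)))
      (fun h hh => FRA5_im _ h (hT h hh) (hT _ ((TT M D θ).inv_mem hh)))
  refine ⟨fun h hh y => ?_, fun h hh => ?_⟩
  · have h1 := FRA5_e (cz R) (Bl M (cz R) θ) h⁻¹ y
    rw [inv_inv, hinv _ ((cz R ⊔ TT M D θ).inv_mem hh)] at h1
    exact h1
  · have hfun : (fun y => eS (cz R) (Bl M (cz R) θ) (h⁻¹ * y * h)) = eS (cz R) (cjF h '' Bl M (cz R) θ) := by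
      funext y
      exact FRA5_e _ _ _ _
    rw [hfun]
    have hsub' : cjF h '' Bl M (cz R) θ ⊆ IrrOn (cz R) := by
      rintro _ ⟨ψ, hψ, rfl⟩
      exact hIrr h ψ hψ.1
    have hdis : ∀ ψ ∈ cjF h '' Bl M (cz R) θ, ψ ∉ Bl M (cz R) θ := by
      rintro _ ⟨ψ, hψ, rfl⟩ hc
      obtain ⟨k, hk, hkt⟩ := hF2 h (by rw [hnz]; exact Subgroup.mem_top h) ψ hψ hc
      apply hh
      have h1 : h = k⁻¹ * (k * h) := by group
      rw [h1]
      exact Subgroup.mul_mem _ (Subgroup.mem_sup_left ((cz R).inv_mem hk)) (Subgroup.mem_sup_right hkt)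
    obtain ⟨hCF, -, hid, -⟩ := hIDM G (cz R) (Bl M (cz R) θ) hsub
    obtain ⟨hCF', -, hid', -⟩ := hIDM G (cz R) (cjF h '' Bl M (cz R) θ) hsub'
    exact hEPR G (cz R) (cjF h '' Bl M (cz R) θ) (Bl M (cz R) θ) hsub' hsub hdis _ _ hCF'.2 hCF.2 hid' hid

end Pool.Agent.L5
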